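import Mathlib

set_option autoImplicit false

namespace Pool.Agent.Work.MP_29df5b_nt

open MeasureTheory ProbabilityTheory

/-- Pairwise-independent second Borel-Cantelli, quantitative form. -/
lemma bc_pairwise {Ω ι : Type*} [MeasurableSpace Ω] (μ : Measure Ω) [IsProbabilityMeasure μ]
    (E : ι → Set Ω) (hE : ∀ i, MeasurableSet (E i)) (I : Set ι)
    (hind : ∀ i ∈ I, ∀ j ∈ I, i ≠ j → μ (E i ∩ E j) = μ (E i) * μ (E j))
    (hdiv : ∀ R : ℝ, ∃ G : Finset ι, (∀ i ∈ G, i ∈ I) ∧ R ≤ ∑ i ∈ G, (μ (E i)).toReal) :
    ∀ᵐ ω ∂μ, ∃ i ∈ I, ω ∈ E i := by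
  rw [ae_iff]
  set B : Set Ω := {ω | ¬ ∃ i ∈ I, ω ∈ E i} with hB
  have key : ∀ R : ℝ, 0 < R → μ B ≤ ENNReal.ofReal (1/R) := by
    intro R hR
    obtain ⟨G, hG, hsum⟩ := hdiv R
    set m : ℝ := ∑ i ∈ G, (μ (E i)).toReal with hm
    have hm0 : 0 < m := lt_of_lt_of_le hR hsum
    set X : ι → Ω → ℝ := fun i => (E i).indicator (fun _ => (1:ℝ)) with hX
    have hmem : ∀ i ∈ G, MemLp (X i) 2 μ := by
      intro i _
      exact memLp_indicator_const 2 (hE i) 1 (Or.inr (measure_ne_top _ _))
    have hindep : (↑G : Set ι).Pairwise fun i j => IndepFun (X i) (X j) μ := by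
      intro i hi j hj hij
      have h1 : IndepSet (E i) (E j) μ :=
        (indepSet_iff_measure_inter_eq_mul (hE i) (hE j) μ).mpr (hind i (hG i hi) j (hG j hj) hij)
      have hm1 : ∀ k, MeasurableSpace.comap (X k) inferInstance ≤ MeasurableSpace.generateFrom {E k} := by
        intro k
        apply Measurable.comap_le
        exact measurable_const.indicator (MeasurableSpace.measurableSet_generateFrom (Set.mem_singleton _))
      exact indep_of_indep_of_le_left (indep_of_indep_of_le_right h1 (hm1 j)) (hm1 i)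
    have hvar := IndepFun.variance_sum hmem hindep
    have hint : ∀ i ∈ G, Integrable (X i) μ := fun i hi => (hmem i hi).integrable (by norm_num)
    have hmean : ∫ ω, (∑ i ∈ G, X i) ω ∂μ = m := by
      simp only [Finset.sum_apply]
      rw [integral_finsetSum _ hint, hm]
      apply Finset.sum_congr rfl
      intro i _
      rw [hX]
      simp only
      rw [integral_indicator_const _ (hE i)]
      simp [Measure.real]
    have hvi : ∀ i ∈ G, variance (X i) μ ≤ (μ (E i)).toReal := by
      intro i hi
      have h2 : variance (X i) μ ≤ ∫ ω, (X i ω)^2 ∂μ := by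
        exact variance_le_expectation_sq (hmem i hi).aestronglyMeasurable
      refine h2.trans (le_of_eq ?_)
      have h3 : (fun ω => (X i ω)^2) = X i := by
        ext ω
        rw [hX]
        simp only [Set.indicator]
        split_ifs <;> simp
      rw [h3, hX]
      simp only
      rw [integral_indicator_const _ (hE i)]
      simp [Measure.real]
    have hV : variance (∑ i ∈ G, X i) μ ≤ m := by
      rw [hvar]; exact Finset.sum_le_sum hvi
    have hmemS : MemLp (∑ i ∈ G, X i) 2 μ := memLp_finsetSum' _ hmem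
    have hch := meas_ge_le_variance_div_sq hmemS hm0
    have hsub : B ⊆ {ω | m ≤ |(∑ i ∈ G, X i) ω - ∫ (x : Ω), (∑ i ∈ G, X i) x ∂μ|} := by
      intro ω hω
      simp only [Set.mem_ofPred_eq]
      rw [hmean]
      have h4 : (∑ i ∈ G, X i) ω = 0 := by
        rw [Finset.sum_apply]
        apply Finset.sum_eq_zero
        intro i hi
        rw [hX]
        simp only
        apply Set.indicator_of_notMem
        intro hmemE
        exact hω ⟨i, hG i hi, hmemE⟩
      rw [h4]
      simp only [zero_sub, abs_neg]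
      exact le_abs_self m
    refine (measure_mono hsub).trans (hch.trans ?_)
    apply ENNReal.ofReal_le_ofReal
    calc variance (∑ i ∈ G, X i) μ / m^2 ≤ m / m^2 := by gcongr
      _ = 1 / m := by field_simp
      _ ≤ 1 / R := by gcongr
  by_contra hne
  have hpos : 0 < (μ B).toReal := ENNReal.toReal_pos hne (measure_ne_top _ _)
  have h5 := key (2 / (μ B).toReal) (by positivity)
  have h6 : 1 / (2 / (μ B).toReal) = (μ B).toReal / 2 := by field_simp
  rw [h6, ← ENNReal.ofReal_toReal (measure_ne_top μ B)] at h5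
  rw [ENNReal.ofReal_le_ofReal_iff (by positivity)] at h5
  rw [ENNReal.toReal_ofReal (by positivity)] at h5
  linarith

end Pool.Agent.Work.MP_29df5b_nt
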