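import Mathlib

set_option autoImplicit false

namespace Pool.Agent.Work.MP_29df5b_nt

open Finset

lemma totient_floor_sum (B : ℕ) : ∑ b ∈ Icc 1 B, Nat.totient b * (B / b) = ∑ n ∈ Icc 1 B, n := by
  have h1 : ∀ n ∈ Icc 1 B, n = ∑ b ∈ Icc 1 B, if b ∣ n then Nat.totient b else 0 := by
    intro n hn
    simp only [mem_Icc] at hn
    rw [← Finset.sum_filter]
    conv_lhs => rw [← Nat.sum_totient n]
    apply Finset.sum_congr _ (fun _ _ => rfl)
    ext b
    simp only [Nat.mem_divisors, mem_filter, mem_Icc]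
    constructor
    · rintro ⟨h, hn0⟩
      exact ⟨⟨Nat.pos_of_dvd_of_pos h (by omega), (Nat.le_of_dvd (by omega) h).trans hn.2⟩, h⟩
    · rintro ⟨_, h⟩
      exact ⟨h, by omega⟩
  rw [Finset.sum_congr rfl h1, Finset.sum_comm]
  apply Finset.sum_congr rfl
  intro b _
  rw [← Finset.sum_filter, Finset.sum_const, smul_eq_mul, mul_comm]
  congr 1
  have := Nat.Ioc_filter_dvd_card_eq_div B b
  rw [← this]
  congr 1

lemma totient_div_sum (B : ℕ) (hB : 1 ≤ B) : ((B : ℝ) + 1) / 2 ≤ ∑ b ∈ Icc 1 B, (Nat.totient b : ℝ) / b := by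
  have h1 := totient_floor_sum B
  have h2 : (∑ n ∈ Icc 1 B, (n : ℝ)) = (B : ℝ) * (B + 1) / 2 := by
    have h3 : ∀ M : ℕ, (∑ n ∈ Icc 1 M, (n : ℝ)) = (M : ℝ) * (M + 1) / 2 := by
      intro M
      induction M with
      | zero => simp
      | succ M ih =>
        rw [Finset.sum_Icc_succ_top (by omega), ih]
        push_cast; ring
    exact h3 B
  have hB0 : (0 : ℝ) < B := by exact_mod_cast hB
  have h4 : (B : ℝ) * (B + 1) / 2 ≤ B * ∑ b ∈ Icc 1 B, (Nat.totient b : ℝ) / b := by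
    rw [← h2, Finset.mul_sum]
    have h5 : (∑ n ∈ Icc 1 B, (n : ℝ)) = ∑ b ∈ Icc 1 B, (Nat.totient b : ℝ) * ((B / b : ℕ) : ℝ) := by
      rw [← Nat.cast_sum, ← h1, Nat.cast_sum]
      apply Finset.sum_congr rfl
      intro b _
      rw [Nat.cast_mul]
    rw [h5]
    apply Finset.sum_le_sum
    intro b hb
    simp only [mem_Icc] at hb
    have h6 : ((B / b : ℕ) : ℝ) ≤ (B : ℝ) / b := Nat.cast_div_le
    calc (Nat.totient b : ℝ) * ((B / b : ℕ) : ℝ) ≤ (Nat.totient b : ℝ) * ((B : ℝ) / b) := by gcongr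
      _ = _ := by ring
  have h7 : (B : ℝ) * (((B : ℝ) + 1) / 2) ≤ B * ∑ b ∈ Icc 1 B, (Nat.totient b : ℝ) / b := by
    calc (B : ℝ) * (((B : ℝ) + 1) / 2) = (B : ℝ) * (B + 1) / 2 := by ring
      _ ≤ _ := h4
  exact le_of_mul_le_mul_left h7 hB0

lemma block_sum (B : ℕ) (hB : 1 ≤ B) : 
    1 / (4 * Real.log (4 * B)) ≤ ∑ b ∈ Ioc B (4*B), (Nat.totient b : ℝ) / ((b : ℝ)^2 * Real.log b) := by
  have hB0 : (1 : ℝ) ≤ B := by exact_mod_cast hB
  have h1 := totient_div_sum (4*B) (by omega)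
  have h2 : ∑ b ∈ Icc 1 B, (Nat.totient b : ℝ) / b ≤ B := by
    calc ∑ b ∈ Icc 1 B, (Nat.totient b : ℝ) / b ≤ ∑ b ∈ Icc 1 B, (1 : ℝ) := by
          apply Finset.sum_le_sum
          intro b hb
          simp only [mem_Icc] at hb
          have : (0 : ℝ) < b := by exact_mod_cast hb.1
          rw [div_le_one this]
          exact_mod_cast Nat.totient_le b
      _ = B := by simp
  have h3 : ∑ b ∈ Icc 1 (4*B), (Nat.totient b : ℝ) / b = 
      ∑ b ∈ Icc 1 B, (Nat.totient b : ℝ) / b + ∑ b ∈ Ioc B (4*B), (Nat.totient b : ℝ) / b := by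
    rw [← Finset.sum_union]
    · congr 1
      ext b; simp only [mem_Icc, mem_union, mem_Ioc]; omega
    · rw [Finset.disjoint_left]
      intro b hb hb2
      simp only [mem_Icc, mem_Ioc] at hb hb2; omega
  have h4 : (B : ℝ) ≤ ∑ b ∈ Ioc B (4*B), (Nat.totient b : ℝ) / b := by
    push_cast at h1
    linarith
  have hlog : 0 < Real.log (4 * B) := Real.log_pos (by linarith)
  calc 1 / (4 * Real.log (4 * B)) = (B : ℝ) * (1 / (4 * B * Real.log (4 * B))) := by field_simp
    _ ≤ (∑ b ∈ Ioc B (4*B), (Nat.totient b : ℝ) / b) * (1 / (4 * B * Real.log (4 * B))) := by gcongr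
    _ = ∑ b ∈ Ioc B (4*B), (Nat.totient b : ℝ) / b * (1 / (4 * B * Real.log (4 * B))) := by rw [Finset.sum_mul]
    _ ≤ _ := by
      apply Finset.sum_le_sum
      intro b hb
      simp only [mem_Ioc] at hb
      have hb1 : (1 : ℝ) < b := by
        have : 1 < b := by omega
        exact_mod_cast this
      have hb2 : (b : ℝ) ≤ 4 * B := by exact_mod_cast hb.2
      have hlb : 0 < Real.log b := Real.log_pos hb1
      have hlb2 : Real.log b ≤ Real.log (4 * B) := Real.log_le_log (by linarith) hb2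
      have e : (Nat.totient b : ℝ) / ((b : ℝ)^2 * Real.log b) = (Nat.totient b : ℝ) / b * (1 / (b * Real.log b)) := by
        field_simp
      rw [e]
      gcongr

lemma F_lower (n : ℕ) : 
    1 / (4 * Real.log 4) * ∑ j ∈ range n, (1 : ℝ) / (j + 1) ≤ 
    ∑ b ∈ Icc 2 (4^n), (Nat.totient b : ℝ) / ((b : ℝ)^2 * Real.log b) := by
  induction n with
  | zero => simp
  | succ n ih =>
    have h1 := block_sum (4^n) (Nat.one_le_pow _ _ (by norm_num))
    have h2 : ∑ b ∈ Icc 2 (4^(n+1)), (Nat.totient b : ℝ) / ((b : ℝ)^2 * Real.log b) = 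
        ∑ b ∈ Icc 2 (4^n), (Nat.totient b : ℝ) / ((b : ℝ)^2 * Real.log b) + 
        ∑ b ∈ Ioc (4^n) (4*4^n), (Nat.totient b : ℝ) / ((b : ℝ)^2 * Real.log b) := by
      rw [← Finset.sum_union]
      · congr 1
        have : 1 ≤ 4^n := Nat.one_le_pow _ _ (by norm_num)
        have e : 4^(n+1) = 4 * 4^n := by ring
        rw [e]
        ext b; simp only [mem_Icc, mem_union, mem_Ioc]; omega
      · rw [Finset.disjoint_left]
        intro b hb hb2
        simp only [mem_Icc, mem_Ioc] at hb hb2; omega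
    rw [h2, Finset.sum_range_succ, mul_add]
    have h3 : 1 / (4 * Real.log 4) * (1 / ((n : ℝ) + 1)) = 1 / (4 * Real.log (4 * (4^n : ℕ))) := by
      have : (4 : ℝ) * ((4^n : ℕ) : ℝ) = 4^(n+1) := by push_cast; ring
      rw [this, Real.log_pow]
      push_cast
      field_simp
    rw [h3]
    exact add_le_add ih h1

lemma F_diverge (J : ℕ) (R : ℝ) : ∃ n : ℕ, 
    R ≤ ∑ b ∈ Icc (J+2) n, (Nat.totient b : ℝ) / ((b : ℝ)^2 * Real.log b) := by
  set g : ℕ → ℝ := fun b => (Nat.totient b : ℝ) / ((b : ℝ)^2 * Real.log b) with hg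
  set S := ∑ b ∈ Icc 2 (J+1), g b with hS
  have hg0 : ∀ b, 0 ≤ g b := by
    intro b
    rw [hg]; simp only
    have : 0 ≤ Real.log b := Real.log_natCast_nonneg b
    positivity
  have h1 := Real.tendsto_sum_range_one_div_nat_succ_atTop
  have hlog : 0 < Real.log 4 := Real.log_pos (by norm_num)
  obtain ⟨n, hn⟩ := (h1.eventually_ge_atTop ((4 * Real.log 4) * (R + S))).exists
  refine ⟨4^n, ?_⟩
  have h2 := F_lower n
  have h3 : R + S ≤ ∑ b ∈ Icc 2 (4^n), g b := by
    refine le_trans ?_ h2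
    calc R + S = 1 / (4 * Real.log 4) * ((4 * Real.log 4) * (R + S)) := by field_simp
      _ ≤ _ := by gcongr
  have h4 : ∑ b ∈ Icc 2 (4^n), g b ≤ S + ∑ b ∈ Icc (J+2) (4^n), g b := by
    rw [hS, ← Finset.sum_union]
    · apply Finset.sum_le_sum_of_subset_of_nonneg
      · intro b hb
        simp only [mem_Icc, mem_union] at hb ⊢; omega
      · intro b _ _; exact hg0 b
    · rw [Finset.disjoint_left]
      intro b hb hb2
      simp only [mem_Icc] at hb hb2; omega
  linarith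

/-- all vectors in the family with last coordinate `b` -/
def famB {d : ℕ} (i0 i1 : Fin d) (b : ℕ) : Finset (Fin d → ℕ) := 
  Fintype.piFinset (fun i => if i = i1 then {b} else if i = i0 then (range b).filter (Nat.Coprime b) else Icc 1 b)

lemma famB_card {d : ℕ} (i0 i1 : Fin d) (h : i0 ≠ i1) (b : ℕ) : 
    (famB i0 i1 b).card = Nat.totient b * b^(d-2) := by
  unfold famB
  rw [Fintype.card_piFinset]
  rw [← Finset.mul_prod_erase univ _ (Finset.mem_univ i1)]
  rw [← Finset.mul_prod_erase (univ.erase i1) _ (Finset.mem_erase.mpr ⟨h, Finset.mem_univ i0⟩)]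
  rw [if_pos rfl, if_neg h, if_pos rfl, Finset.card_singleton, one_mul]
  congr 1
  have h1 : ∀ i ∈ (univ.erase i1).erase i0, (if i = i1 then ({b} : Finset ℕ) else if i = i0 then (range b).filter (Nat.Coprime b) else Icc 1 b).card = b := by
    intro i hi
    simp only [mem_erase, mem_univ, and_true] at hi
    rw [if_neg hi.2, if_neg hi.1]; simp
  rw [Finset.prod_congr rfl h1, Finset.prod_const]
  congr 1
  rw [Finset.card_erase_of_mem (Finset.mem_erase.mpr ⟨h, Finset.mem_univ i0⟩), Finset.card_erase_of_mem (Finset.mem_univ i1)]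
  simp
  omega

lemma mem_famB {d : ℕ} {i0 i1 : Fin d} (h : i0 ≠ i1) {b : ℕ} (hb : 2 ≤ b) {v : Fin d → ℕ} (hv : v ∈ famB i0 i1 b) :
    v i1 = b ∧ Nat.Coprime (v i0) (v i1) ∧ ∀ i, 1 ≤ v i ∧ v i ≤ b := by
  unfold famB at hv
  rw [Fintype.mem_piFinset] at hv
  have h1 := hv i1
  rw [if_pos rfl, Finset.mem_singleton] at h1
  have h0 := hv i0
  rw [if_neg h, if_pos rfl, Finset.mem_filter, Finset.mem_range] at h0
  refine ⟨h1, ?_, ?_⟩
  · rw [h1]; exact h0.2.symm
  · intro i
    have hi := hv i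
    by_cases e1 : i = i1
    · rw [e1, h1]; omega
    · by_cases e0 : i = i0
      · rw [e0]
        refine ⟨?_, h0.1.le⟩
        rcases Nat.eq_zero_or_pos (v i0) with hz | hz
        · exfalso
          have := h0.2
          rw [hz, Nat.coprime_zero_right] at this
          omega
        · exact hz
      · rw [if_neg e1, if_neg e0, Finset.mem_Icc] at hi
        exact hi

end Pool.Agent.Work.MP_29df5b_nt
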