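import Mathlib

set_option autoImplicit false

namespace Pool.Agent.Work.MP_29df5b_nt

open MeasureTheory

/-- The character `α ↦ ∑ v_i α_i` on the torus. -/
noncomputable def chi {d : ℕ} (v : Fin d → ℕ) : (Fin d → UnitAddCircle) →+ UnitAddCircle where
  toFun α := ∑ i, v i • α i
  map_zero' := by simp
  map_add' α β := by simp [Finset.sum_add_distrib]

lemma chi_apply {d : ℕ} (v : Fin d → ℕ) (α : Fin d → UnitAddCircle) : chi v α = ∑ i, v i • α i := rfl

lemma chi_continuous {d : ℕ} (v : Fin d → ℕ) : Continuous (chi v) := by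
  show Continuous (fun α : Fin d → UnitAddCircle => ∑ i, v i • α i)
  fun_prop

lemma chi_single {d : ℕ} (v : Fin d → ℕ) (i : Fin d) (x : UnitAddCircle) :
    chi v (Pi.single i x) = v i • x := by
  rw [chi_apply, Finset.sum_eq_single i]
  · simp
  · intro j _ hj; simp [hj]
  · intro h; exact absurd (Finset.mem_univ i) h

lemma nsmul_coe (n : ℕ) (x : ℝ) : n • (x : UnitAddCircle) = ((n * x : ℝ) : UnitAddCircle) := by
  rw [← nsmul_eq_mul]; rfl

lemma chi_surjective {d : ℕ} (v : Fin d → ℕ) (i : Fin d) (hi : v i ≠ 0) :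
    Function.Surjective (chi v) := by
  intro x
  obtain ⟨X, rfl⟩ := QuotientAddGroup.mk_surjective x
  refine ⟨Pi.single i ((X / v i : ℝ) : UnitAddCircle), ?_⟩
  rw [chi_single, nsmul_coe]
  have : (v i : ℝ) ≠ 0 := by exact_mod_cast hi
  congr 1
  field_simp

lemma chi_prod_surjective {d : ℕ} (v w : Fin d → ℕ) (i j : Fin d)
    (h : v i * w j ≠ v j * w i) :
    Function.Surjective ((chi v).prod (chi w)) := by
  rintro ⟨x, y⟩
  obtain ⟨X, rfl⟩ := QuotientAddGroup.mk_surjective x
  obtain ⟨Y, rfl⟩ := QuotientAddGroup.mk_surjective y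
  have hD : (v i : ℝ) * w j - v j * w i ≠ 0 := by
    intro h0
    apply h
    have : (v i : ℝ) * w j = v j * w i := by linarith
    exact_mod_cast this
  refine ⟨Pi.single i (((X * w j - Y * v j) / ((v i : ℝ) * w j - v j * w i) : ℝ) : UnitAddCircle) +
    Pi.single j (((v i * Y - w i * X) / ((v i : ℝ) * w j - v j * w i) : ℝ) : UnitAddCircle), ?_⟩
  rw [AddMonoidHom.prod_apply, map_add, map_add, chi_single, chi_single, chi_single, chi_single,
    nsmul_coe, nsmul_coe, nsmul_coe, nsmul_coe, ← AddCircle.coe_add, ← AddCircle.coe_add]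
  congr 2
  · field_simp; ring
  · have e : (w i : ℝ) * ((X * w j - Y * v j) / ((v i : ℝ) * w j - v j * w i)) + 
        w j * ((v i * Y - w i * X) / ((v i : ℝ) * w j - v j * w i)) = 
        Y * (((v i : ℝ) * w j - v j * w i) / ((v i : ℝ) * w j - v j * w i)) := by ring
    rw [e, div_self hD, mul_one]

lemma isProb_circle : IsProbabilityMeasure (volume : Measure UnitAddCircle) :=
  ⟨UnitAddCircle.measure_univ⟩

lemma isProb_pi {d : ℕ} : IsProbabilityMeasure (volume : Measure (Fin d → UnitAddCircle)) := by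
  have := isProb_circle
  rw [volume_pi]
  infer_instance

lemma chi_mp {d : ℕ} (v : Fin d → ℕ) (i : Fin d) (hi : v i ≠ 0) :
    MeasurePreserving (chi v) (volume : Measure (Fin d → UnitAddCircle)) volume := by
  have := isProb_circle
  have := isProb_pi (d := d)
  apply AddMonoidHom.measurePreserving (chi_continuous v) (chi_surjective v i hi)
  rw [measure_univ, measure_univ]

lemma chi_prod_mp {d : ℕ} (v w : Fin d → ℕ) (i j : Fin d)
    (h : v i * w j ≠ v j * w i) :
    MeasurePreserving ((chi v).prod (chi w)) (volume : Measure (Fin d → UnitAddCircle)) 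
      ((volume : Measure UnitAddCircle).prod volume) := by
  have := isProb_circle
  have := isProb_pi (d := d)
  have hc : Continuous ((chi v).prod (chi w)) := (chi_continuous v).prodMk (chi_continuous w)
  apply AddMonoidHom.measurePreserving hc (chi_prod_surjective v w i j h)
  rw [measure_univ, measure_univ]

/-- The event `‖v·α‖ ≤ ε`. -/
def Ev {d : ℕ} (v : Fin d → ℕ) (ε : ℝ) : Set (Fin d → UnitAddCircle) := (chi v) ⁻¹' (Metric.closedBall 0 ε)

lemma Ev_meas {d : ℕ} (v : Fin d → ℕ) (ε : ℝ) : MeasurableSet (Ev v ε) :=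
  (chi_continuous v).measurable Metric.isClosed_closedBall.measurableSet

lemma Ev_measure {d : ℕ} (v : Fin d → ℕ) (i : Fin d) (hi : v i ≠ 0) (ε : ℝ) (h1 : ε ≤ 1/2) :
    (volume : Measure (Fin d → UnitAddCircle)) (Ev v ε) = ENNReal.ofReal (2 * ε) := by
  unfold Ev
  rw [(chi_mp v i hi).measure_preimage Metric.isClosed_closedBall.measurableSet.nullMeasurableSet]
  rw [AddCircle.volume_closedBall]
  congr 1
  apply min_eq_right
  linarith

lemma Ev_indep {d : ℕ} (v w : Fin d → ℕ) (i j : Fin d)
    (h : v i * w j ≠ v j * w i) (ε δ : ℝ) :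
    (volume : Measure (Fin d → UnitAddCircle)) (Ev v ε ∩ Ev w δ) = 
      (volume : Measure (Fin d → UnitAddCircle)) (Ev v ε) * (volume : Measure (Fin d → UnitAddCircle)) (Ev w δ) := by
  have hv : ∃ k, v k ≠ 0 := by
    by_contra hc
    push Not at hc
    apply h; rw [hc i, hc j]; simp
  have hw : ∃ k, w k ≠ 0 := by
    by_contra hc
    push Not at hc
    apply h; rw [hc i, hc j]; simp
  obtain ⟨k, hk⟩ := hv
  obtain ⟨l, hl⟩ := hw
  have h1 : Ev v ε ∩ Ev w δ = ((chi v).prod (chi w)) ⁻¹' ((Metric.closedBall 0 ε) ×ˢ (Metric.closedBall 0 δ)) := by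
    ext α
    simp [Ev]
  rw [h1, (chi_prod_mp v w i j h).measure_preimage, Measure.prod_prod]
  · unfold Ev
    rw [(chi_mp v k hk).measure_preimage Metric.isClosed_closedBall.measurableSet.nullMeasurableSet,
      (chi_mp w l hl).measure_preimage Metric.isClosed_closedBall.measurableSet.nullMeasurableSet]
  · exact (Metric.isClosed_closedBall.measurableSet.prod Metric.isClosed_closedBall.measurableSet).nullMeasurableSet

/-- Transfer from the torus to `ℝ^d`. -/
lemma ae_transfer {d : ℕ} (P : (Fin d → UnitAddCircle) → Prop) 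
    (h : ∀ᵐ a ∂(volume : Measure (Fin d → UnitAddCircle)), P a) : 
    ∀ᵐ α ∂(volume : Measure (Fin d → ℝ)), P (fun i => (α i : UnitAddCircle)) := by
  have hcover : (⋃ z : Fin d → ℤ, Set.univ.pi (fun i => Set.Ioc (z i : ℝ) (z i + 1))) = Set.univ := by
    rw [Set.eq_univ_iff_forall]
    intro α
    rw [Set.mem_iUnion]
    refine ⟨fun i => ⌈α i⌉ - 1, ?_⟩
    intro i _
    constructor
    · push_cast
      have := Int.ceil_lt_add_one (α i)
      linarith
    · push_cast
      have := Int.le_ceil (α i)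
      linarith
  rw [← Measure.restrict_univ (μ := (volume : Measure (Fin d → ℝ))), ← hcover, ae_restrict_iUnion_iff]
  intro z
  have h1 : MeasurePreserving (fun (α : Fin d → ℝ) (i : Fin d) => (α i : UnitAddCircle)) 
      ((volume : Measure (Fin d → ℝ)).restrict (Set.univ.pi (fun i => Set.Ioc (z i : ℝ) (z i + 1)))) volume := by
    rw [volume_pi, Measure.restrict_pi_pi, volume_pi]
    exact measurePreserving_pi _ _ (fun i => UnitAddCircle.measurePreserving_mk (z i))
  exact h1.quasiMeasurePreserving.ae h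

end Pool.Agent.Work.MP_29df5b_nt
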