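import Mathlib
import Pool.Agent.Work.MP_29df5b_nt.BC
import Pool.Agent.Work.MP_29df5b_nt.Torus
import Pool.Agent.Work.MP_29df5b_nt.Diverge

set_option autoImplicit false

namespace Pool.Agent.Work.MP_29df5b_nt

open MeasureTheory Finset

/-- the approximation radius attached to `v` -/
noncomputable def psi {d : ℕ} (c : ℝ) (i1 : Fin d) (v : Fin d → ℕ) : ℝ := c / ((v i1 : ℝ)^d * Real.log (v i1))

lemma exists_minor {d : ℕ} {i0 i1 : Fin d} (v w : Fin d → ℕ) (hvw : v ≠ w)
    (hv : Nat.Coprime (v i0) (v i1)) (hw : Nat.Coprime (w i0) (w i1)) 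
    (hv1 : ∀ i, 1 ≤ v i) (hw1 : ∀ i, 1 ≤ w i) : ∃ i j, v i * w j ≠ v j * w i := by
  by_cases h : v i0 * w i1 = v i1 * w i0
  · have h1 : v i0 ∣ w i0 := hv.dvd_of_dvd_mul_left (Dvd.intro _ h)
    have h2 : w i0 ∣ v i0 := by
      apply hw.dvd_of_dvd_mul_right
      rw [h]; exact Dvd.intro_left _ rfl
    have h3 : v i0 = w i0 := Nat.dvd_antisymm h1 h2
    have h4 : v i1 = w i1 := by
      rw [h3, mul_comm (v i1)] at h
      exact (Nat.eq_of_mul_eq_mul_left (hw1 i0) h).symm
    obtain ⟨k, hk⟩ := Function.ne_iff.mp hvw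
    refine ⟨k, i1, ?_⟩
    intro h5
    rw [← h4, mul_comm] at h5
    exact hk (Nat.eq_of_mul_eq_mul_left (hv1 i1) h5)
  · exact ⟨i0, i1, h⟩

theorem approx_torus {d : ℕ} (hd : 2 ≤ d) (i0 i1 : Fin d) (h01 : i0 ≠ i1) (c : ℝ) (hc : 0 < c) (hc1 : c ≤ 1/4) (J : ℕ) :
    ∀ᵐ a ∂(volume : Measure (Fin d → UnitAddCircle)), ∃ v ∈ {v : Fin d → ℕ | ∃ b, J + 2 ≤ b ∧ v ∈ famB i0 i1 b}, 
      a ∈ Ev v (psi c i1 v) := by
  have := isProb_pi (d := d)
  apply bc_pairwise
  · intro v; exact Ev_meas _ _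
  · rintro v ⟨b, hb, hv⟩ w ⟨b', hb', hw⟩ hvw
    obtain ⟨h1, h2, h3⟩ := mem_famB h01 (by omega) hv
    obtain ⟨h1', h2', h3'⟩ := mem_famB h01 (by omega) hw
    obtain ⟨i, j, hij⟩ := exists_minor v w hvw h2 h2' (fun i => (h3 i).1) (fun i => (h3' i).1)
    exact Ev_indep v w i j hij _ _
  · intro R
    obtain ⟨n, hn⟩ := F_diverge J (R / (2 * c))
    refine ⟨(Icc (J+2) n).biUnion (famB i0 i1), ?_, ?_⟩
    · intro v hv
      rw [Finset.mem_biUnion] at hv
      obtain ⟨b, hb, hv⟩ := hv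
      exact ⟨b, (Finset.mem_Icc.mp hb).1, hv⟩
    · rw [Finset.sum_biUnion]
      · have h1 : ∀ b ∈ Icc (J+2) n, ∑ v ∈ famB i0 i1 b, ((volume : Measure (Fin d → UnitAddCircle)) (Ev v (psi c i1 v))).toReal = 
            2 * c * ((Nat.totient b : ℝ) / ((b : ℝ)^2 * Real.log b)) := by
          intro b hb
          rw [Finset.mem_Icc] at hb
          have hb2 : 2 ≤ b := by omega
          have hbr : (2 : ℝ) ≤ b := by exact_mod_cast hb2
          have hlog2 : (1/2 : ℝ) < Real.log 2 := by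
            have := Real.log_two_gt_d9
            linarith
          have hlog : Real.log 2 ≤ Real.log b := Real.log_le_log (by norm_num) hbr
          have h2 : ∀ v ∈ famB i0 i1 b, ((volume : Measure (Fin d → UnitAddCircle)) (Ev v (psi c i1 v))).toReal = 
              2 * (c / ((b : ℝ)^d * Real.log b)) := by
            intro v hv
            obtain ⟨h1, h2, h3⟩ := mem_famB h01 hb2 hv
            have hp : 0 < c / ((b : ℝ)^d * Real.log b) := by
              have : 0 < Real.log b := by linarith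
              positivity
            have h4 : psi c i1 v = c / ((b : ℝ)^d * Real.log b) := by
              unfold psi; rw [h1]
            have h5 : c / ((b : ℝ)^d * Real.log b) ≤ 1/2 := by
              rw [div_le_iff₀ (by have : 0 < Real.log b := by linarith
                                  positivity)]
              have h6 : (1 : ℝ) ≤ (b : ℝ)^d := one_le_pow₀ (by linarith)
              nlinarith
            rw [h4, Ev_measure v i1 (by rw [h1]; omega) _ h5, ENNReal.toReal_ofReal (by positivity)]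
          rw [Finset.sum_congr rfl h2, Finset.sum_const, famB_card i0 i1 h01, nsmul_eq_mul]
          push_cast
          obtain ⟨e, rfl⟩ : ∃ e, d = e + 2 := ⟨d - 2, by omega⟩
          have : (b : ℝ) ≠ 0 := by positivity
          simp only [Nat.add_sub_cancel]
          field_simp
          rw [pow_add]
        rw [Finset.sum_congr rfl h1, ← Finset.mul_sum]
        calc R = 2 * c * (R / (2 * c)) := by field_simp
          _ ≤ _ := by gcongr
      · intro b hb b' hb' hbb'
        rw [Function.onFun, Finset.disjoint_left]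
        intro v hv hv'
        rw [Finset.coe_Icc, Set.mem_Icc] at hb hb'
        obtain ⟨h1, _, _⟩ := mem_famB h01 (by omega) hv
        obtain ⟨h1', _, _⟩ := mem_famB h01 (by omega) hv'
        exact hbb' (h1.symm.trans h1')

/-- Divergence case of the Khinchin-Groshev theorem for one linear form in `d ≥ 2` variables, in the
form needed here. -/
theorem approx {d : ℕ} (hd : 2 ≤ d) (i0 i1 : Fin d) (h01 : i0 ≠ i1) (c : ℝ) (hc : 0 < c) (hc1 : c ≤ 1/4) :
    ∀ᵐ α : Fin d → ℝ, ∀ J : ℕ, ∃ v : Fin d → ℕ, ∃ b : ℕ, J + 2 ≤ b ∧ v i1 = b ∧ (∀ i, 1 ≤ v i ∧ v i ≤ b) ∧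
      ∃ m : ℤ, |∑ i, (v i : ℝ) * α i - m| ≤ c / ((b : ℝ)^d * Real.log b) := by
  rw [ae_all_iff]
  intro J
  have h1 := ae_transfer _ (approx_torus hd i0 i1 h01 c hc hc1 J)
  filter_upwards [h1] with α hα
  obtain ⟨v, ⟨b, hb, hv⟩, hE⟩ := hα
  obtain ⟨h1, h2, h3⟩ := mem_famB h01 (by omega) hv
  refine ⟨v, b, hb, h1, h3, round (∑ i, (v i : ℝ) * α i), ?_⟩
  unfold Ev at hE
  rw [Set.mem_preimage, mem_closedBall_zero_iff, chi_apply] at hE
  have h4 : ∑ i, v i • ((α i : ℝ) : UnitAddCircle) = ((∑ i, (v i : ℝ) * α i : ℝ) : UnitAddCircle) := by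
    have h5 : ((∑ i, (v i : ℝ) * α i : ℝ) : UnitAddCircle) = ∑ i, (((v i : ℝ) * α i : ℝ) : UnitAddCircle) :=
      map_sum (QuotientAddGroup.mk' (AddSubgroup.zmultiples (1:ℝ))) _ _
    rw [h5]
    apply Finset.sum_congr rfl
    intro i _
    rw [nsmul_coe]
  rw [h4, UnitAddCircle.norm_eq] at hE
  unfold psi at hE
  rw [h1] at hE
  exact hE

end Pool.Agent.Work.MP_29df5b_nt
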