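import Mathlib

set_option autoImplicit false

namespace Pool.Agent.Work.MP_29df5b_nt

open Finset

lemma occ_card {d : ℕ} (i1 : Fin d) (v : Fin d → ℕ) (V L : ℕ) (hV : 1 ≤ V) (hL : 1 ≤ L) (hv1 : v i1 = V)
    (O : Finset (Fin d → ℕ)) 
    (hO : ∀ m ∈ O, (∀ i, m i < L * V) ∧ ∃ a : ℤ, (L * V * a - (d+1) * V < ∑ i, (v i : ℤ) * m i) ∧ 
      (∑ i, (v i : ℤ) * m i ≤ L * V * a + V)) : 
    O.card ≤ (L * V)^(d-1) * (V * (d+3)) := by
  classical
  choose! hlt a ha using hO
  -- the sum without the coordinate `i1`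
  set R : (Fin d → ℕ) → ℕ := fun m => ∑ i ∈ univ.erase i1, v i * m i with hR
  set rho : (Fin d → ℕ) → ℕ := fun m => R m / V with hrho
  have hsum : ∀ m : Fin d → ℕ, (∑ i, (v i : ℤ) * m i) = V * m i1 + R m := by
    intro m
    rw [← Finset.add_sum_erase univ _ (Finset.mem_univ i1), hv1, hR]
    push_cast
    rfl
  have hz : ∀ m ∈ O, 0 ≤ (m i1 : ℤ) - L * a m + rho m + (d+1) ∧ (m i1 : ℤ) - L * a m + rho m + (d+1) ≤ d + 2 := by
    intro m hm
    obtain ⟨h1, h2⟩ := ha m hm
    rw [hsum m] at h1 h2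
    have hVz : (0 : ℤ) < V := by exact_mod_cast hV
    have h3 : (R m : ℤ) = V * rho m + (R m % V : ℕ) := by
      have := Nat.div_add_mod (R m) V
      rw [hrho]
      exact_mod_cast this.symm
    have h4 : ((R m % V : ℕ) : ℤ) < V := by exact_mod_cast Nat.mod_lt _ hV
    have h5 : (0 : ℤ) ≤ ((R m % V : ℕ) : ℤ) := by positivity
    rw [h3] at h1 h2
    constructor
    · -- lower bound
      have h6 : (V : ℤ) * (L * a m - (d+1) - rho m - 1) < V * m i1 := by nlinarith
      have h7 := lt_of_mul_lt_mul_left h6 hVz.le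
      linarith
    · have h6 : (V : ℤ) * m i1 ≤ V * (L * a m + 1 - rho m) := by nlinarith
      have h7 := le_of_mul_le_mul_left h6 hVz
      linarith
  set T : Finset ((Fin d → ℕ) × ℕ × ℕ) := 
    (Fintype.piFinset (fun i => if i = i1 then ({0} : Finset ℕ) else range (L*V))) ×ˢ (range V ×ˢ range (d+3)) with hT
  have hTcard : T.card = (L * V)^(d-1) * (V * (d+3)) := by
    rw [hT, Finset.card_product, Finset.card_product, Finset.card_range, Finset.card_range, Fintype.card_piFinset]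
    congr 1
    rw [← Finset.mul_prod_erase univ _ (Finset.mem_univ i1), if_pos rfl, Finset.card_singleton, one_mul]
    have h1 : ∀ i ∈ univ.erase i1, (if i = i1 then ({0} : Finset ℕ) else range (L*V)).card = L*V := by
      intro i hi
      simp only [mem_erase, mem_univ, and_true] at hi
      rw [if_neg hi]; simp
    rw [Finset.prod_congr rfl h1, Finset.prod_const, Finset.card_erase_of_mem (Finset.mem_univ i1)]
    simp
  rw [← hTcard]
  apply Finset.card_le_card_of_injOn (fun m => (Function.update m i1 0, m i1 / L, ((m i1 : ℤ) - L * a m + rho m + (d+1)).toNat))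
  · intro m hm
    rw [hT]
    simp only [coe_product, Set.mem_prod, Finset.mem_coe, Finset.mem_range, Fintype.mem_piFinset]
    refine ⟨?_, ?_, ?_⟩
    · intro i
      by_cases h : i = i1
      · rw [if_pos h, h]; simp
      · rw [if_neg h, Function.update_of_ne h]; simp [hlt m hm i]
    · rw [Nat.div_lt_iff_lt_mul (by omega)]
      have := hlt m hm i1
      rwa [mul_comm]
    · have := (hz m hm).2
      have h0 := (hz m hm).1
      omega
  · intro m hm m' hm' heq
    simp only [Prod.mk.injEq] at heq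
    obtain ⟨h1, h2, h3⟩ := heq
    have hother : ∀ i, i ≠ i1 → m i = m' i := by
      intro i hi
      have := congrFun h1 i
      rwa [Function.update_of_ne hi, Function.update_of_ne hi] at this
    have hRe : R m = R m' := by
      rw [hR]
      apply Finset.sum_congr rfl
      intro i hi
      simp only [mem_erase, mem_univ, and_true] at hi
      rw [hother i hi]
    have hrhoe : rho m = rho m' := by rw [hrho]; simp only; rw [hRe]
    have h4 : (m i1 : ℤ) - L * a m = m' i1 - L * a m' := by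
      have e1 := (hz m hm).1
      have e2 := (hz m' hm').1
      have e3 : ((m i1 : ℤ) - L * a m + rho m + (d+1)) = ((m' i1 : ℤ) - L * a m' + rho m' + (d+1)) := by
        rw [← Int.toNat_of_nonneg e1, ← Int.toNat_of_nonneg e2]
        exact_mod_cast h3
      rw [hrhoe] at e3
      linarith
    have h5 : (m i1 : ℤ) = L * (m i1 / L : ℕ) + (m i1 % L : ℕ) := by
      exact_mod_cast (Nat.div_add_mod (m i1) L).symm
    have h6 : (m' i1 : ℤ) = L * (m' i1 / L : ℕ) + (m' i1 % L : ℕ) := by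
      exact_mod_cast (Nat.div_add_mod (m' i1) L).symm
    have h7 : ((m i1 % L : ℕ) : ℤ) < L := by exact_mod_cast Nat.mod_lt _ hL
    have h8 : ((m' i1 % L : ℕ) : ℤ) < L := by exact_mod_cast Nat.mod_lt _ hL
    have h9 : m i1 % L = m' i1 % L := by
      have h10 : (m i1 : ℤ) ≡ m' i1 [ZMOD L] := by
        rw [Int.modEq_iff_dvd]
        refine ⟨a m' - a m, ?_⟩
        linarith
      have h11 : m i1 ≡ m' i1 [MOD L] := Int.natCast_modEq_iff.mp h10
      exact h11
    have h12 : m i1 = m' i1 := by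
      rw [← Nat.div_add_mod (m i1) L, ← Nat.div_add_mod (m' i1) L, h2, h9]
    ext i
    by_cases h : i = i1
    · rw [h, h12]
    · exact hother i h

lemma collisions {γ : Type*} [DecidableEq γ] (β : ℕ → γ) (N : ℕ) : 
    N^2 ≤ ((Icc 1 N).image β).card * (((Icc 1 N) ×ˢ (Icc 1 N)).filter (fun kl => β kl.1 = β kl.2)).card := by
  have h1 : N = ∑ m ∈ (Icc 1 N).image β, ((Icc 1 N).filter (fun n => β n = m)).card := by
    have := Finset.card_eq_sum_card_image β (Icc 1 N)
    simpa using this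
  have h2 : (((Icc 1 N) ×ˢ (Icc 1 N)).filter (fun kl => β kl.1 = β kl.2)).card = 
      ∑ m ∈ (Icc 1 N).image β, ((Icc 1 N).filter (fun n => β n = m)).card ^ 2 := by
    rw [Finset.card_eq_sum_card_fiberwise (f := fun kl : ℕ × ℕ => β kl.1) (t := (Icc 1 N).image β)]
    · apply Finset.sum_congr rfl
      intro m _
      rw [sq, ← Finset.card_product]
      congr 1
      ext ⟨k, l⟩
      simp only [Finset.mem_filter, Finset.mem_product]
      constructor
      · rintro ⟨⟨⟨h1, h2⟩, h3⟩, h4⟩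
        exact ⟨⟨h1, h4⟩, ⟨h2, by rw [← h3, h4]⟩⟩
      · rintro ⟨⟨h1, h2⟩, ⟨h3, h4⟩⟩
        exact ⟨⟨⟨h1, h3⟩, by rw [h2, h4]⟩, h2⟩
    · intro kl hkl
      simp only [Finset.coe_filter, Finset.mem_product, Set.mem_ofPred_eq] at hkl
      simp only [Finset.coe_image, Set.mem_image, Finset.mem_coe]
      exact ⟨kl.1, hkl.1.1, rfl⟩
  rw [h2]
  have h3 := sq_sum_le_card_mul_sum_sq (s := (Icc 1 N).image β) (f := fun m => ((Icc 1 N).filter (fun n => β n = m)).card)
  rw [← h1] at h3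
  exact h3

lemma offdiag_card {γ : Type*} [DecidableEq γ] (β : ℕ → γ) (N : ℕ) : 
    (((Icc 1 N) ×ˢ (Icc 1 N)).filter (fun kl => β kl.1 = β kl.2)).card = 
    (((Icc 1 N) ×ˢ (Icc 1 N)).filter (fun kl => kl.1 ≠ kl.2 ∧ β kl.1 = β kl.2)).card + N := by
  have h1 : (((Icc 1 N) ×ˢ (Icc 1 N)).filter (fun kl => β kl.1 = β kl.2)) = 
      (((Icc 1 N) ×ˢ (Icc 1 N)).filter (fun kl => kl.1 ≠ kl.2 ∧ β kl.1 = β kl.2)) ∪ (Icc 1 N).image (fun n => (n, n)) := by
    ext ⟨k, l⟩
    simp only [Finset.mem_filter, Finset.mem_product, Finset.mem_union, Finset.mem_image, Prod.mk.injEq]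
    constructor
    · rintro ⟨⟨h1, h2⟩, h3⟩
      by_cases h : k = l
      · right; exact ⟨k, h1, rfl, h⟩
      · left; exact ⟨⟨h1, h2⟩, h, h3⟩
    · rintro (⟨⟨h1, h2⟩, h, h3⟩ | ⟨n, hn, h1, h2⟩)
      · exact ⟨⟨h1, h2⟩, h3⟩
      · rw [← h1, ← h2]; exact ⟨⟨hn, hn⟩, rfl⟩
  rw [h1, Finset.card_union_of_disjoint]
  · congr 1
    rw [Finset.card_image_of_injective _ (fun a b h => (Prod.mk.inj h).1)]
    simp
  · rw [Finset.disjoint_left]
    rintro ⟨k, l⟩ h2 h3
    simp only [Finset.mem_filter, Finset.mem_image, Prod.mk.injEq] at h2 h3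
    obtain ⟨n, _, h4, h5⟩ := h3
    exact h2.2.1 (h4.symm.trans h5)

/-- Points of `[0,1)^d` close to the rational hyperplanes `v·x ∈ ℤ` produce many close pairs. -/
theorem many_pairs {d : ℕ} (hd : 1 ≤ d) (i1 : Fin d) (v : Fin d → ℕ) (V L : ℕ) (hV : 1 ≤ V) (hL : 1 ≤ L) 
    (hv1 : v i1 = V) (hvi : ∀ i, 1 ≤ v i ∧ v i ≤ V) (x : ℕ → Fin d → ℝ) (hx : ∀ n i, 0 ≤ x n i ∧ x n i < 1)
    (N : ℕ) (hN : N = (L * V)^d)
    (h : ∀ n ∈ Icc 1 N, ∃ a : ℤ, |∑ i, (v i : ℝ) * x n i - a| ≤ 1 / L) : 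
    N * L ≤ ((((Icc 1 N) ×ˢ (Icc 1 N)).filter (fun kl => kl.1 ≠ kl.2 ∧ ‖x kl.1 - x kl.2‖ < 1 / ((L * V : ℕ) : ℝ))).card + N) * (d+3) := by
  classical
  set K := L * V with hK
  have hK1 : 1 ≤ K := Nat.mul_pos hL hV
  have hKr : (0 : ℝ) < K := by exact_mod_cast hK1
  set β : ℕ → Fin d → ℕ := fun n i => ⌊(K : ℝ) * x n i⌋₊ with hβ
  have hfl : ∀ n i, (β n i : ℝ) ≤ K * x n i ∧ K * x n i < β n i + 1 := by
    intro n i
    constructor
    · exact Nat.floor_le (mul_nonneg hKr.le (hx n i).1)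
    · exact Nat.lt_floor_add_one _
  -- occupied boxes
  have hO : ((Icc 1 N).image β).card ≤ K^(d-1) * (V * (d+3)) := by
    apply occ_card i1 v V L hV hL hv1
    intro m hm
    rw [Finset.mem_image] at hm
    obtain ⟨n, hn, rfl⟩ := hm
    refine ⟨?_, ?_⟩
    · intro i
      have h1 := (hfl n i).1
      have h2 := (hx n i).2
      have h3 : (β n i : ℝ) < K := by nlinarith
      exact_mod_cast h3
    · obtain ⟨a, ha⟩ := h n hn
      refine ⟨a, ?_⟩
      rw [abs_le] at ha
      have hLr : (0 : ℝ) < L := by exact_mod_cast hL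
      have hVr : (0 : ℝ) < V := by exact_mod_cast hV
      have hKe : (K : ℝ) = L * V := by rw [hK]; push_cast; ring
      have h1 : ∑ i, (v i : ℝ) * β n i ≤ K * ∑ i, (v i : ℝ) * x n i := by
        rw [Finset.mul_sum]
        apply Finset.sum_le_sum
        intro i _
        have := (hfl n i).1
        have hv0 : (0 : ℝ) ≤ v i := by positivity
        nlinarith
      have h2 : K * ∑ i, (v i : ℝ) * x n i < ∑ i, (v i : ℝ) * β n i + d * V := by
        have h3 : (∑ i : Fin d, (V : ℝ)) = d * V := by simp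
        rw [← h3, ← Finset.sum_add_distrib, Finset.mul_sum]
        apply Finset.sum_lt_sum_of_nonempty ⟨i1, Finset.mem_univ i1⟩
        intro i _
        have h4 := (hfl n i).2
        have hv0 : (1 : ℝ) ≤ v i := by exact_mod_cast (hvi i).1
        have hv2 : (v i : ℝ) ≤ V := by exact_mod_cast (hvi i).2
        nlinarith
      have h5 : (K : ℝ) * (1 / L) = V := by rw [hKe]; field_simp
      have e1 : (K : ℝ) * a = L * V * a := by rw [hKe]
      have e2 := mul_le_mul_of_nonneg_left ha.1 hKr.le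
      have e3 := mul_le_mul_of_nonneg_left ha.2 hKr.le
      rw [mul_neg, h5, mul_sub, e1] at e2
      rw [h5, mul_sub, e1] at e3
      constructor
      · have h6 : ((L * V * a - (d+1) * V : ℤ) : ℝ) < ((∑ i, (v i : ℤ) * β n i : ℤ) : ℝ) := by
          push_cast
          linarith
        exact_mod_cast h6
      · have h6 : ((∑ i, (v i : ℤ) * β n i : ℤ) : ℝ) ≤ ((L * V * a + V : ℤ) : ℝ) := by
          push_cast
          linarith
        exact_mod_cast h6
  have hcol := collisions β N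
  have hoff := offdiag_card β N
  set A := (((Icc 1 N) ×ˢ (Icc 1 N)).filter (fun kl => kl.1 ≠ kl.2 ∧ β kl.1 = β kl.2)).card with hA
  have hAle : A ≤ (((Icc 1 N) ×ˢ (Icc 1 N)).filter (fun kl => kl.1 ≠ kl.2 ∧ ‖x kl.1 - x kl.2‖ < 1 / (K : ℝ))).card := by
    apply Finset.card_le_card
    intro kl hkl
    simp only [Finset.mem_filter] at hkl ⊢
    refine ⟨hkl.1, hkl.2.1, ?_⟩
    rw [pi_norm_lt_iff (by positivity)]
    intro i
    have e := congrFun hkl.2.2 i
    have h1 := hfl kl.1 i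
    have h2 := hfl kl.2 i
    rw [e] at h1
    rw [Pi.sub_apply, Real.norm_eq_abs, abs_lt, lt_div_iff₀ hKr, neg_eq_neg_one_mul, ← mul_one_div]
    constructor
    · rw [← sub_pos]
      have : 0 < (x kl.1 i - x kl.2 i) * K + 1 := by nlinarith
      have h3 : 0 < ((x kl.1 i - x kl.2 i) * K + 1) * (1 / K) := by positivity
      have h4 : ((x kl.1 i - x kl.2 i) * K + 1) * (1 / K) = x kl.1 i - x kl.2 i + 1 / K := by field_simp
      rw [h4] at h3
      linarith
    · nlinarith
  rw [hoff] at hcol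
  have hN2 : N = K^(d-1) * K := by
    rw [hN, ← pow_succ]; congr 1; omega
  have h7 : N * N ≤ (K^(d-1) * (V * (d+3))) * (A + N) := by
    calc N * N = N^2 := by ring
      _ ≤ _ := hcol
      _ ≤ _ := Nat.mul_le_mul_right _ hO
  have hKd : 0 < K^(d-1) := Nat.pow_pos hK1
  -- cancel K^(d-1) and V
  have h8 : (K^(d-1) * V) * (N * L) ≤ (K^(d-1) * V) * ((A + N) * (d+3)) := by
    calc (K^(d-1) * V) * (N * L) = (K^(d-1) * K) * N := by rw [hK]; ring
      _ = N * N := by rw [← hN2]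
      _ ≤ _ := h7
      _ = _ := by ring
  have h9 : N * L ≤ (A + N) * (d+3) := Nat.le_of_mul_le_mul_left h8 (Nat.mul_pos hKd hV)
  calc N * L ≤ (A + N) * (d+3) := h9
    _ ≤ _ := by gcongr

end Pool.Agent.Work.MP_29df5b_nt
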