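import Mathlib

set_option autoImplicit false

namespace Pool.Agent.Work.MP_29df5b_nt

open Real

/-- The `n`-th prime, `n ≥ 1` (so `pr 1 = 2`). -/
noncomputable def pr (n : ℕ) : ℕ := Nat.nth Nat.Prime (n - 1)

lemma pr_prime (n : ℕ) : (pr n).Prime := Nat.prime_nth_prime _

lemma pr_mono {m n : ℕ} (h : m ≤ n) : pr m ≤ pr n :=
  Nat.nth_monotone Nat.infinite_setOfPred_prime (by omega)

lemma primeCounting_pr {n : ℕ} (hn : 1 ≤ n) : Nat.primeCounting (pr n) = n := by
  unfold pr Nat.primeCounting
  rw [Nat.primeCounting', Nat.count_succ, if_pos (Nat.prime_nth_prime _)]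
  have := Nat.primeCounting'_nth_eq (n-1)
  unfold Nat.primeCounting' at this
  rw [this]
  omega

/-- Chebyshev upper bound for the `N`-th prime. -/
lemma pr_bound : ∃ C : ℝ, 0 < C ∧ ∀ N : ℕ, 2 ≤ N → (pr N : ℝ) ≤ C * (N * log N) := by
  have hlog2 : 0 < log 2 := log_pos (by norm_num)
  have hl2 : (1/2 : ℝ) < log 2 := by
    have := Real.log_two_gt_d9
    linarith
  refine ⟨40, by positivity, ?_⟩
  intro N hN
  set x : ℝ := (pr N : ℝ) with hx
  have hx2 : (2 : ℝ) ≤ x := by rw [hx]; exact_mod_cast (pr_prime N).two_le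
  have hlx : 0 < log x := log_pos (by linarith)
  have h1 := Chebyshev.pi_ge (pr N)
  rw [primeCounting_pr (by omega), div_le_iff₀ hlx] at h1
  rw [← hx] at h1
  have hlx1 : log (x+1) ≤ 2 * log x := by
    have : 2 * log x = log (x^2) := by rw [log_pow]; push_cast; ring
    rw [this]
    apply log_le_log (by linarith)
    nlinarith
  have h2 : x * log 2 ≤ (N + 2) * log x := by linarith
  have hN2 : (2 : ℝ) ≤ N := by exact_mod_cast hN
  have h3 : x ≤ 2 * (N+2) * log x := by
    nlinarith
  have h4 : x ≤ 4 * N * log x := by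
    nlinarith
  -- log x ≤ 2 sqrt x
  have h5 : log x ≤ 2 * sqrt x := by
    have h6 : log (sqrt x) ≤ sqrt x - 1 := log_le_sub_one_of_pos (by positivity)
    have h7 : log (sqrt x) = log x / 2 := Real.log_sqrt (by linarith)
    linarith
  have h8 : sqrt x ≤ 8 * N := by
    have h9 : sqrt x * sqrt x = x := mul_self_sqrt (by linarith)
    have h10 : 0 < sqrt x := by positivity
    have h11 : sqrt x * sqrt x ≤ (8 * N) * sqrt x := by
      rw [h9]; nlinarith
    exact le_of_mul_le_mul_right h11 h10
  have h12 : x ≤ 64 * N^2 := by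
    have h9 : sqrt x * sqrt x = x := mul_self_sqrt (by linarith)
    have h10 : 0 ≤ sqrt x := by positivity
    nlinarith
  have hlN : log 2 ≤ log N := log_le_log (by norm_num) hN2
  have h13 : log x ≤ 8 * log N := by
    have h14 : log x ≤ log (64 * (N:ℝ)^2) := log_le_log (by linarith) h12
    have h15 : log (64 * (N:ℝ)^2) = 6 * log 2 + 2 * log N := by
      rw [log_mul (by norm_num) (by positivity), log_pow]
      have : (64 : ℝ) = 2^6 := by norm_num
      rw [this, log_pow]; push_cast; ring
    rw [h15] at h14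
    linarith
  nlinarith

end Pool.Agent.Work.MP_29df5b_nt
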